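import Pool.Agent.helper20.Sz.B1
import Pool.Agent.helper91.Sz.B2
import Pool.Agent.helper70.Sz.R1
import Pool.Agent.helper40.Sz.DD
import Pool.Agent.helper69.Sz.C3
import Pool.Agent.helper9.Sz.C2
import Pool.Agent.helper59.Sz.R2

/-!
# The map `Ξ` is a chain map: assembly
-/

open scoped symmDiff

namespace Pool.Agent.helper20.Sz
namespace C4
variable {X E : Type} [DecidableEq X] [Fintype E] [DecidableEq E] {K : Cube X E}

omit [Fintype E] [DecidableEq E] in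
theorem ac_nonempty {s0 : Bool} {v G : Finset X} (h : K.AC s0 v G) : G.Nonempty := by
  rcases h with h | ⟨A, B, hAB, -, hA, -, -⟩
  · exact h.1
  · rw [← hAB]; exact hA.mono Finset.subset_union_left

omit [DecidableEq X] in
/-- for normal valid words the first block is a member or everything -/
theorem b0_mem {v : Finset X} {𝒟 : Finset (Finset E)} (h : K.Valid v 𝒟) :
    (𝒟 = ∅ ∧ B0 𝒟 = Finset.univ) ∨ B0 𝒟 ∈ 𝒟 := by
  rcases 𝒟.eq_empty_or_nonempty with h0 | h0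
  · left; subst h0; exact ⟨rfl, by ext x; simp [B0]⟩
  · right
    obtain ⟨D, hD, hmin⟩ := Finset.exists_min_image 𝒟 Finset.card h0
    have : B0 𝒟 = D := by
      ext x
      simp only [B0, Finset.mem_filter, Finset.mem_univ, true_and]
      constructor
      · intro hx; exact hx D hD
      · intro hx D' hD'
        rcases h.chain D hD D' hD' with h1 | h1
        · exact h1 hx
        · rw [Finset.eq_of_subset_of_card_le h1 (hmin D' hD')]; exact hx
    rw [this]; exact hD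

omit [DecidableEq X] in
theorem b0_sub {𝒟 : Finset (Finset E)} {D : Finset E} (hD : D ∈ 𝒟) : B0 𝒟 ⊆ D := by
  intro x hx
  simp only [B0, Finset.mem_filter, Finset.mem_univ, true_and] at hx
  exact hx D hD

omit [DecidableEq X] in
theorem mem_b0 {𝒟 : Finset (Finset E)} {x : E} : x ∈ B0 𝒟 ↔ ∀ D ∈ 𝒟, x ∈ D := by
  simp [B0]

omit [DecidableEq X] in
/-- position of an inserted set -/
theorem tri {w : Finset X} {𝒟 : Finset (Finset E)} {D : Finset E} {u : Finset X}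
    (hu : K.Valid u 𝒟) (h : K.Valid w (insert D 𝒟)) (hD : D ∉ 𝒟) :
    (B0 𝒟 ⊂ D ∧ ¬ D ⊂ B0 𝒟) ∨ (¬ B0 𝒟 ⊂ D ∧ D ⊂ B0 𝒟) := by
  have hne : D ≠ B0 𝒟 := by
    rintro rfl
    rcases b0_mem hu with ⟨-, h1⟩ | h1
    · exact h.top _ (Finset.mem_insert_self _ _) h1
    · exact hD h1
  have hcomp : D ⊆ B0 𝒟 ∨ B0 𝒟 ⊆ D := by
    rcases b0_mem hu with ⟨-, h1⟩ | h1
    · left; rw [h1]; exact Finset.subset_univ _
    · exact h.chain D (Finset.mem_insert_self _ _) _ (Finset.mem_insert_of_mem h1)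
  rcases hcomp with h1 | h1
  · have : D ⊂ B0 𝒟 := lt_of_le_of_ne h1 hne
    exact Or.inr ⟨fun h2 => h2.2 this.1, this⟩
  · have : B0 𝒟 ⊂ D := lt_of_le_of_ne h1 (Ne.symm hne)
    exact Or.inl ⟨this, fun h2 => h2.2 this.1⟩

theorem xi_iff (P : E) (v : Finset X) (s : E → Bool) {w : Finset X} {𝒟 : Finset (Finset E)}
    (hn : Nrm P 𝒟) : K.Xi P v s w 𝒟 ↔ K.Xi0 P v s w 𝒟 := by
  constructor
  · intro h; exact (R2.xi_nrm P v s h.1 hn).1 h
  · intro h; exact (R2.xi_nrm P v s h.valid hn).2 h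

theorem xi_outer (P : E) (v : Finset X) (s : E → Bool) {w : Finset X}
    {𝒟 : Finset (Finset E)} (hn : Nrm P 𝒟) {D : Finset E} (hD : D ∉ 𝒟) (hDB : D ⊂ B0 𝒟) :
    K.Xi P v s w (insert D 𝒟) ↔ K.Valid w (insert D 𝒟) ∧
      ((P ∈ D ∧ K.Xi0 P v s w (insert D 𝒟)) ∨ (P ∉ D ∧ K.Xi0 P v s w (rho D (insert D 𝒟)))) := by
  by_cases hP : P ∈ D
  · have hn' : Nrm P (insert D 𝒟) := by
      intro D' hD'
      rcases Finset.mem_insert.1 hD' with rfl | h
      · exact hP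
      · exact hn D' h
    rw [xi_iff P v s hn']
    constructor
    · intro h; exact ⟨h.valid, Or.inl ⟨hP, h⟩⟩
    · rintro ⟨-, ⟨-, h⟩ | ⟨h, -⟩⟩
      · exact h
      · exact absurd hP h
  · have hDm : D ∈ insert D 𝒟 := Finset.mem_insert_self _ _
    have hnr : Nrm P (rho D (insert D 𝒟)) := by
      intro D' hD'
      unfold rho at hD'
      rcases Finset.mem_insert.1 hD' with rfl | h
      · exact Finset.mem_compl.2 hP
      · obtain ⟨D'', h1, rfl⟩ := Finset.mem_image.1 h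
        obtain ⟨h2, h3⟩ := Finset.mem_erase.1 h1
        have h4 : D'' ∈ 𝒟 := (Finset.mem_insert.1 h3).resolve_left h2
        have h5 : D ⊆ D'' := hDB.1.trans (b0_sub h4)
        unfold rr
        rw [if_pos h5]
        exact Finset.mem_sdiff.2 ⟨hn D'' h4, hP⟩
    constructor
    · rintro ⟨h1, h2 | ⟨D', hD', h2⟩⟩
      · exact absurd (h2.nrm D hDm) hP
      · have := R1.nrm_unique h1 P hD' hDm h2.nrm hnr
        subst this
        exact ⟨h1, Or.inr ⟨hP, h2⟩⟩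
    · rintro ⟨h1, ⟨h, -⟩ | ⟨-, h2⟩⟩
      · exact absurd h hP
      · exact ⟨h1, Or.inr ⟨D, hDm, h2⟩⟩

open Classical in
theorem lhs1 (hK : K.IsCore) (s0 : Bool) (P : E) (v u : Finset X) (s : E → Bool)
    (𝒟 : Finset (Finset E)) (hv : K.Valid u 𝒟) (hn : Nrm P 𝒟) (w : Finset X) :
    (if (∀ c ∈ u \ w, K.Nsep 𝒟 c) then (if K.AC s0 u (u \ w) then K.XiV P v s w 𝒟 else 0)
      else (0 : ZMod 2)) =
    (if (∀ c ∈ u \ w, K.Nsep 𝒟 c ∧ s (K.tail c) = true) ∧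
        K.AC s0 u (u \ w) ∧ K.Xi0 P v s w 𝒟 then (1 : ZMod 2) else 0) +
    (if (∀ c ∈ u \ w, K.Nsep 𝒟 c ∧ s (K.tail c) = false) ∧
        K.AC s0 u (u \ w) ∧ K.Xi0 P v s w 𝒟 then (1 : ZMod 2) else 0) := by
  by_cases hp : ∀ c ∈ u \ w, K.Nsep 𝒟 c
  · rw [if_pos hp]
    by_cases hq : K.AC s0 u (u \ w)
    · rw [if_pos hq]
      by_cases hr : K.Xi0 P v s w 𝒟
      · have h1 : K.XiV P v s w 𝒟 = 1 := if_pos ((xi_iff P v s hn).2 hr)
        rw [h1]
        have hsu : ∀ x y, K.same u x y → s x = s y := by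
          intro x y hxy
          have : (s x = false ↔ s y = false) := by
            rw [hr.first x, hr.first y]
            exact forall₂_congr fun D hD => hv.sat D hD x y hxy
          cases h : s x <;> cases h' : s y <;> simp_all
        have hends : ∀ c ∈ u \ w, s (K.tail c) = s (K.head c) := by
          intro c hc
          have : (s (K.tail c) = false ↔ s (K.head c) = false) := by
            rw [hr.first, hr.first]
            exact forall₂_congr fun D hD => hp c hc D hD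
          cases h : s (K.tail c) <;> cases h' : s (K.head c) <;> simp_all
        have hcon := B2.AC_conn hK hq s hsu hends
        obtain ⟨c0, hc0⟩ := ac_nonempty hq
        cases hs0 : s (K.tail c0) with
        | true =>
          rw [if_pos ⟨fun c hc => ⟨hp c hc, (hcon c hc c0 hc0).trans hs0⟩, hq, hr⟩,
            if_neg (fun h => by have := (h.1 c0 hc0).2; rw [hs0] at this; exact absurd this (by simp)),
            add_zero]
        | false =>
          rw [if_neg (fun h => by have := (h.1 c0 hc0).2; rw [hs0] at this; exact absurd this (by simp)),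
            if_pos ⟨fun c hc => ⟨hp c hc, (hcon c hc c0 hc0).trans hs0⟩, hq, hr⟩,
            zero_add]
      · have h1 : K.XiV P v s w 𝒟 = 0 := if_neg (fun h => hr ((xi_iff P v s hn).1 h))
        rw [h1, if_neg (fun h => hr h.2.2), if_neg (fun h => hr h.2.2), add_zero]
    · rw [if_neg hq, if_neg (fun h => hq h.2.1), if_neg (fun h => hq h.2.1), add_zero]
  · rw [if_neg hp, if_neg (fun h => hp fun c hc => (h.1 c hc).1),
      if_neg (fun h => hp fun c hc => (h.1 c hc).1), add_zero]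

open Classical in
theorem lhs2 (P : E) (v u : Finset X) (s : E → Bool)
    (𝒟 : Finset (Finset E)) (hv : K.Valid u 𝒟) (hn : Nrm P 𝒟) (w : Finset X) :
    (if (∀ c ∈ u \ w, K.Nsep 𝒟 c) then (if K.num u + (u \ w).card = K.num w then
        ∑ D ∈ Finset.univ.filter (fun D : Finset E =>
          D ∉ 𝒟 ∧ ∀ c ∈ u \ w, K.tail c ∈ D ∧ K.head c ∉ D), K.XiV P v s w (insert D 𝒟)
      else 0) else (0 : ZMod 2)) =
    (∑ D : Finset E, if D ∉ 𝒟 ∧ B0 𝒟 ⊂ D ∧
        (∀ c ∈ u \ w, K.Nsep 𝒟 c ∧ K.tail c ∈ D ∧ K.head c ∉ D) ∧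
        K.num u + (u \ w).card = K.num w ∧ K.Xi0 P v s w (insert D 𝒟) then (1 : ZMod 2) else 0) +
    (∑ D : Finset E, if D ∉ 𝒟 ∧ D ⊂ B0 𝒟 ∧
        (∀ c ∈ u \ w, K.Nsep 𝒟 c ∧ K.tail c ∈ D ∧ K.head c ∉ D) ∧
        K.num u + (u \ w).card = K.num w ∧ K.Valid w (insert D 𝒟) ∧
        ((P ∈ D ∧ K.Xi0 P v s w (insert D 𝒟)) ∨
         (P ∉ D ∧ K.Xi0 P v s w (rho D (insert D 𝒟)))) then (1 : ZMod 2) else 0) := by
  rw [← Finset.sum_add_distrib]
  by_cases hp : ∀ c ∈ u \ w, K.Nsep 𝒟 c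
  · rw [if_pos hp]
    by_cases hq : K.num u + (u \ w).card = K.num w
    · rw [if_pos hq, Finset.sum_filter]
      refine Finset.sum_congr rfl fun D _ => ?_
      by_cases hD : D ∉ 𝒟 ∧ ∀ c ∈ u \ w, K.tail c ∈ D ∧ K.head c ∉ D
      · rw [if_pos hD]
        have hc : ∀ c ∈ u \ w, K.Nsep 𝒟 c ∧ K.tail c ∈ D ∧ K.head c ∉ D :=
          fun c hc => ⟨hp c hc, hD.2 c hc⟩
        by_cases hX : K.Xi P v s w (insert D 𝒟)
        · have h1 : K.XiV P v s w (insert D 𝒟) = 1 := if_pos hX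
          rw [h1]
          rcases tri hv hX.1 hD.1 with ⟨h2, h3⟩ | ⟨h2, h3⟩
          · have hn' : Nrm P (insert D 𝒟) := by
              intro D' hD'
              rcases Finset.mem_insert.1 hD' with rfl | h
              · exact h2.1 (mem_b0.2 hn)
              · exact hn D' h
            rw [if_pos ⟨hD.1, h2, hc, hq, (xi_iff P v s hn').1 hX⟩, if_neg (fun h => h3 h.2.1),
              add_zero]
          · have h4 := (xi_outer P v s hn hD.1 h3).1 hX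
            rw [if_neg (fun h => h2 h.2.1), if_pos ⟨hD.1, h3, hc, hq, h4⟩, zero_add]
        · have h1 : K.XiV P v s w (insert D 𝒟) = 0 := if_neg hX
          rw [h1, if_neg, if_neg, add_zero]
          · rintro ⟨-, h3, -, -, h4⟩
            exact hX ((xi_outer P v s hn hD.1 h3).2 h4)
          · rintro ⟨-, -, -, -, h4⟩
            exact hX ⟨h4.valid, Or.inl h4⟩
      · rw [if_neg hD, if_neg, if_neg, add_zero]
        · rintro ⟨h1, -, h2, -⟩; exact hD ⟨h1, fun c hc => (h2 c hc).2⟩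
        · rintro ⟨h1, -, h2, -⟩; exact hD ⟨h1, fun c hc => (h2 c hc).2⟩
    · rw [if_neg hq]
      refine (Finset.sum_eq_zero fun D _ => ?_).symm
      rw [if_neg (fun h => hq h.2.2.2.1), if_neg (fun h => hq h.2.2.2.1), add_zero]
  · rw [if_neg hp]
    refine (Finset.sum_eq_zero fun D _ => ?_).symm
    rw [if_neg (fun h => hp fun c hc => (h.2.2.1 c hc).1),
      if_neg (fun h => hp fun c hc => (h.2.2.1 c hc).1), add_zero]

open Classical in
theorem lhs (hK : K.IsCore) (s0 : Bool) (P : E) (v u : Finset X) (s : E → Bool)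
    (𝒟 : Finset (Finset E)) (hv : K.Valid u 𝒟) (hn : Nrm P 𝒟) :
    K.del s0 (K.XiV P v s) u 𝒟 =
    ((∑ w ∈ u.powerset, if (∀ c ∈ u \ w, K.Nsep 𝒟 c ∧ s (K.tail c) = true) ∧
        K.AC s0 u (u \ w) ∧ K.Xi0 P v s w 𝒟 then (1 : ZMod 2) else 0) +
      (∑ w ∈ u.powerset, ∑ D : Finset E, if D ∉ 𝒟 ∧ B0 𝒟 ⊂ D ∧
        (∀ c ∈ u \ w, K.Nsep 𝒟 c ∧ K.tail c ∈ D ∧ K.head c ∉ D) ∧
        K.num u + (u \ w).card = K.num w ∧ K.Xi0 P v s w (insert D 𝒟) then (1 : ZMod 2) else 0)) +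
    (∑ w ∈ u.powerset, if (∀ c ∈ u \ w, K.Nsep 𝒟 c ∧ s (K.tail c) = false) ∧
        K.AC s0 u (u \ w) ∧ K.Xi0 P v s w 𝒟 then (1 : ZMod 2) else 0) +
    (∑ w ∈ u.powerset, ∑ D : Finset E, if D ∉ 𝒟 ∧ D ⊂ B0 𝒟 ∧
        (∀ c ∈ u \ w, K.Nsep 𝒟 c ∧ K.tail c ∈ D ∧ K.head c ∉ D) ∧
        K.num u + (u \ w).card = K.num w ∧ K.Valid w (insert D 𝒟) ∧
        ((P ∈ D ∧ K.Xi0 P v s w (insert D 𝒟)) ∨
         (P ∉ D ∧ K.Xi0 P v s w (rho D (insert D 𝒟)))) then (1 : ZMod 2) else 0) := by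
  change K.delF s0 (K.XiV P v s) u 𝒟 = _
  unfold Cube.delF
  simp only [← Finset.sum_add_distrib]
  refine Finset.sum_congr rfl fun w _ => ?_
  have h1 := lhs1 hK s0 P v u s 𝒟 hv hn w
  have h2 := lhs2 P v u s 𝒟 hv hn w
  rw [← Finset.sum_add_distrib] at h2
  have h3 : ∀ (p : Prop) [Decidable p] (x y : ZMod 2), (if p then x + y else 0) =
      (if p then x else 0) + (if p then y else 0) := by
    intro p _ x y; split_ifs <;> simp
  rw [h3, h1, h2, Finset.sum_add_distrib]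
  ring

omit [DecidableEq E] in
theorem s_unique {P : E} {v v' u : Finset X} {s s' : E → Bool} {𝒟 : Finset (Finset E)}
    (h : K.Xi0 P v s u 𝒟) (h' : K.Xi0 P v' s' u 𝒟) : s = s' := by
  funext x
  have : (s x = false ↔ s' x = false) := by rw [h.first x, h'.first x]
  cases h1 : s x <;> cases h2 : s' x <;> simp_all

omit [Fintype E] [DecidableEq E] in
/-- a generator over `w` with the same labels -/
theorem exists_gen (hK : K.IsCore) (a : K.Gen) {w : Finset X} (h : a.v ⊆ w)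
    (hg : ∀ c ∈ w \ a.v, a.s (K.tail c) = a.s (K.head c)) :
    ∃ b : K.Gen, b.v = w ∧ b.s = a.s := by
  have h1 : a.v ∆ (w \ a.v) = w := by
    ext x
    simp only [Finset.mem_symmDiff, Finset.mem_sdiff]
    have := @h x
    tauto
  refine ⟨⟨w, a.s, fun x y hxy => ?_⟩, rfl, rfl⟩
  exact B1.inv_flip hK a.s a.v (w \ a.v) a.inv hg x y (by rw [h1]; exact hxy)

omit [Fintype E] [DecidableEq E] in
theorem star_ne (hK : K.IsCore) {a b : K.Gen} {tl hd : X → E} (h : K.Star tl hd a b) :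
    a.s ≠ b.s := by
  obtain ⟨z, -, h1, -⟩ := h
  intro h2
  exact (h1 z).2 ⟨(hK.eqv _).refl z, (hK.eqv _).refl z⟩ (congrFun h2 z)

omit [DecidableEq E] in
open Classical in
theorem rhs_w (hK : K.IsCore) (s0 : Bool) (P : E) (a : K.Gen) (u : Finset X)
    (𝒟 : Finset (Finset E)) (w : Finset X) :
    (if ∃ b : K.Gen, b.v = w ∧ K.Coef s0 a b ∧ K.Xi0 P b.v b.s u 𝒟 then (1 : ZMod 2) else 0) =
    (if a.v ⊆ w ∧ K.AC s0 a.v (w \ a.v) ∧
        (∀ c ∈ w \ a.v, a.s (K.tail c) = true ∧ a.s (K.head c) = true) ∧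
        K.Xi0 P w a.s u 𝒟 then (1 : ZMod 2) else 0) +
    (if a.v ⊆ w ∧ K.AC s0 w (w \ a.v) ∧
        (∀ c ∈ w \ a.v, a.s (K.tail c) = false ∧ a.s (K.head c) = false) ∧
        K.Xi0 P w a.s u 𝒟 then (1 : ZMod 2) else 0) +
    (if ∃ b : K.Gen, b.v = w ∧ a.v ⊂ w ∧
        (K.Star K.tail K.head a b ∨ K.Star K.head K.tail a b) ∧
        K.Xi0 P b.v b.s u 𝒟 then (1 : ZMod 2) else 0) := by
  set pA := a.v ⊆ w ∧ K.AC s0 a.v (w \ a.v) ∧
        (∀ c ∈ w \ a.v, a.s (K.tail c) = true ∧ a.s (K.head c) = true) ∧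
        K.Xi0 P w a.s u 𝒟 with hpA
  set pB := a.v ⊆ w ∧ K.AC s0 w (w \ a.v) ∧
        (∀ c ∈ w \ a.v, a.s (K.tail c) = false ∧ a.s (K.head c) = false) ∧
        K.Xi0 P w a.s u 𝒟 with hpB
  set pE := ∃ b : K.Gen, b.v = w ∧ a.v ⊂ w ∧
        (K.Star K.tail K.head a b ∨ K.Star K.head K.tail a b) ∧
        K.Xi0 P b.v b.s u 𝒟 with hpE
  have hAB : pA → ¬ pB := by
    rintro ⟨-, h1, h2, -⟩ ⟨-, -, h3, -⟩
    obtain ⟨c, hc⟩ := ac_nonempty h1
    have := (h2 c hc).1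
    rw [(h3 c hc).1] at this
    exact absurd this (by simp)
  have hne : K.Xi0 P w a.s u 𝒟 → ¬ pE := by
    rintro h1 ⟨b, -, -, h3, h4⟩
    have h5 := s_unique h1 h4
    rcases h3 with h3 | h3
    · exact star_ne hK h3 h5
    · exact star_ne hK h3 h5
  have hss : ∀ {G : Finset X}, a.v ⊆ w → (w \ a.v).Nonempty → a.v ⊂ w := by
    intro _ h1 h2
    refine Finset.ssubset_iff_subset_ne.2 ⟨h1, ?_⟩
    rintro h3
    rw [h3, Finset.sdiff_self] at h2
    exact Finset.not_nonempty_empty h2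
  have hiff : (∃ b : K.Gen, b.v = w ∧ K.Coef s0 a b ∧ K.Xi0 P b.v b.s u 𝒟) ↔
      (pA ∨ pB ∨ pE) := by
    constructor
    · rintro ⟨b, hb, ⟨h1, h2 | h2 | h2⟩, h3⟩
      · subst hb
        have hs : b.s = a.s := (funext h2.1).symm
        rw [hs] at h3
        exact Or.inl ⟨h1.1, h2.2.1, h2.2.2, h3⟩
      · subst hb
        have hs : b.s = a.s := (funext h2.1).symm
        rw [hs] at h3
        exact Or.inr (Or.inl ⟨h1.1, h2.2.1, h2.2.2, h3⟩)
      · subst hb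
        exact Or.inr (Or.inr ⟨b, rfl, h1, h2, h3⟩)
    · rintro (⟨h1, h2, h3, h4⟩ | ⟨h1, h2, h3, h4⟩ | ⟨b, hb, h1, h2, h3⟩)
      · obtain ⟨b, hb, hbs⟩ := exists_gen hK a h1 (fun c hc => (h3 c hc).1.trans (h3 c hc).2.symm)
        refine ⟨b, hb, ⟨?_, Or.inl ⟨fun x => by rw [hbs], ?_, ?_⟩⟩, ?_⟩
        · rw [hb]; exact hss (G := w) h1 (ac_nonempty h2)
        · rw [hb]; exact h2
        · rw [hb]; exact h3
        · rw [hb, hbs]; exact h4
      · obtain ⟨b, hb, hbs⟩ := exists_gen hK a h1 (fun c hc => (h3 c hc).1.trans (h3 c hc).2.symm)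
        refine ⟨b, hb, ⟨?_, Or.inr (Or.inl ⟨fun x => by rw [hbs], ?_, ?_⟩)⟩, ?_⟩
        · rw [hb]; exact hss (G := w) h1 (ac_nonempty h2)
        · rw [hb]; exact h2
        · rw [hb]; exact h3
        · rw [hb, hbs]; exact h4
      · exact ⟨b, hb, ⟨by rw [hb]; exact h1, Or.inr (Or.inr h2)⟩, h3⟩
  by_cases hA : pA
  · rw [if_pos hA, if_neg (hAB hA), if_neg (hne hA.2.2.2), if_pos (hiff.2 (Or.inl hA))]; ring
  · by_cases hB : pB
    · rw [if_neg hA, if_pos hB, if_neg (hne hB.2.2.2), if_pos (hiff.2 (Or.inr (Or.inl hB)))]; ring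
    · by_cases hE : pE
      · rw [if_neg hA, if_neg hB, if_pos hE, if_pos (hiff.2 (Or.inr (Or.inr hE)))]; ring
      · rw [if_neg hA, if_neg hB, if_neg hE, if_neg (fun h => ?_)]
        · ring
        · rcases hiff.1 h with h | h | h
          · exact hA h
          · exact hB h
          · exact hE h

open Classical in
theorem rhs (hK : K.IsCore) (s0 : Bool) (P : E) (a : K.Gen)
    [Fintype {g : K.Gen // g.s P = false}] (u : Finset X)
    (𝒟 : Finset (Finset E)) (hn : Nrm P 𝒟) :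
    (∑ b : {g : K.Gen // g.s P = false},
      if K.Coef s0 a b.1 then K.XiV P b.1.v b.1.s else 0) u 𝒟 =
    (∑ w ∈ u.powerset, if a.v ⊆ w ∧ K.AC s0 a.v (w \ a.v) ∧
        (∀ c ∈ w \ a.v, a.s (K.tail c) = true ∧ a.s (K.head c) = true) ∧
        K.Xi0 P w a.s u 𝒟 then (1 : ZMod 2) else 0) +
    (∑ w ∈ u.powerset, if a.v ⊆ w ∧ K.AC s0 w (w \ a.v) ∧
        (∀ c ∈ w \ a.v, a.s (K.tail c) = false ∧ a.s (K.head c) = false) ∧
        K.Xi0 P w a.s u 𝒟 then (1 : ZMod 2) else 0) +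
    (∑ w ∈ u.powerset, if ∃ b : K.Gen, b.v = w ∧ a.v ⊂ w ∧
        (K.Star K.tail K.head a b ∨ K.Star K.head K.tail a b) ∧
        K.Xi0 P b.v b.s u 𝒟 then (1 : ZMod 2) else 0) := by
  have h1 : (∑ b : {g : K.Gen // g.s P = false},
      if K.Coef s0 a b.1 then K.XiV P b.1.v b.1.s else 0) u 𝒟 =
      ∑ b : {g : K.Gen // g.s P = false},
        if K.Coef s0 a b.1 ∧ K.Xi0 P b.1.v b.1.s u 𝒟 then (1 : ZMod 2) else 0 := by
    rw [Finset.sum_apply, Finset.sum_apply]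
    refine Finset.sum_congr rfl fun b _ => ?_
    by_cases hc : K.Coef s0 a b.1
    · rw [if_pos hc]
      by_cases hx : K.Xi0 P b.1.v b.1.s u 𝒟
      · rw [if_pos ⟨hc, hx⟩]; exact if_pos ((xi_iff P _ _ hn).2 hx)
      · rw [if_neg (fun h => hx h.2)]; exact if_neg (fun h => hx ((xi_iff P _ _ hn).1 h))
    · rw [if_neg hc, if_neg (fun h => hc h.1)]; rfl
  rw [h1, ← Finset.sum_add_distrib, ← Finset.sum_add_distrib]
  rw [← Finset.sum_congr rfl (fun w _ => rhs_w hK s0 P a u 𝒟 w), Finset.sum_boole,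
    Finset.sum_boole]
  congr 1
  refine Finset.card_bij (fun b _ => b.1.v) ?_ ?_ ?_
  · intro b hb
    have h2 := (Finset.mem_filter.1 hb).2
    exact Finset.mem_filter.2 ⟨Finset.mem_powerset.2 h2.2.sub, b.1, rfl, h2.1, h2.2⟩
  · rintro ⟨⟨v, s, h⟩, hs⟩ hb ⟨⟨v', s', h'⟩, hs'⟩ hb' hvv
    have h2 := (Finset.mem_filter.1 hb).2
    have h3 := (Finset.mem_filter.1 hb').2
    have h4 := s_unique h2.2 h3.2
    simp only at hvv h4
    subst hvv h4
    rfl
  · intro w hw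
    obtain ⟨-, b, hb, h2, h3⟩ := Finset.mem_filter.1 hw
    exact ⟨⟨b, (h3.first P).2 hn⟩, Finset.mem_filter.2 ⟨Finset.mem_univ _, h2, h3⟩, hb⟩

open Classical in
theorem chain_core (hKc : K.IsCore) (s0 : Bool) (P : E) (a : K.Gen) (hP : a.s P = false)
    [Fintype {g : K.Gen // g.s P = false}]
    (hC1 : ∀ (v u : Finset X) (s : E → Bool), (∀ x y, K.same v x y → s x = s y) → s P = false →
      ∀ 𝒟 : Finset (Finset E), K.Valid u 𝒟 → Nrm P 𝒟 →
      (∑ w ∈ u.powerset, if (∀ c ∈ u \ w, K.Nsep 𝒟 c ∧ s (K.tail c) = true) ∧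
        K.AC s0 u (u \ w) ∧ K.Xi0 P v s w 𝒟 then (1 : ZMod 2) else 0) +
      (∑ w ∈ u.powerset, ∑ D : Finset E, if D ∉ 𝒟 ∧ B0 𝒟 ⊂ D ∧
        (∀ c ∈ u \ w, K.Nsep 𝒟 c ∧ K.tail c ∈ D ∧ K.head c ∉ D) ∧
        K.num u + (u \ w).card = K.num w ∧ K.Xi0 P v s w (insert D 𝒟) then (1 : ZMod 2) else 0) =
      ∑ w ∈ u.powerset, if v ⊆ w ∧ K.AC s0 v (w \ v) ∧
        (∀ c ∈ w \ v, s (K.tail c) = true ∧ s (K.head c) = true) ∧
        K.Xi0 P w s u 𝒟 then (1 : ZMod 2) else 0) :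
    K.del s0 (K.XiV P a.v a.s) = ∑ b : {g : K.Gen // g.s P = false},
      if K.Coef s0 a b.1 then K.XiV P b.1.v b.1.s else 0 := by
  have hsum : ∀ (ι : Type) [Fintype ι] (c : ι → Prop) (f : ι → W X E) (u : Finset X)
      (𝒟 : Finset (Finset E)), (∑ b : ι, if c b then f b else 0) u 𝒟 =
      ∑ b : ι, if c b then f b u 𝒟 else 0 := by
    intro ι _ c f u 𝒟
    rw [Finset.sum_apply, Finset.sum_apply]
    refine Finset.sum_congr rfl fun b _ => ?_
    split_ifs <;> rfl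
  refine R1.rot_ext P (K := K) ?_ ?_ ?_ ?_ ?_
  · exact DD.del_supp hKc s0 _ (R2.xi_supp P a.v a.s)
  · intro u 𝒟 h
    rw [hsum] at h
    obtain ⟨b, -, hb⟩ := Finset.exists_ne_zero_of_sum_ne_zero h
    by_cases hc : K.Coef s0 a b.1
    · rw [if_pos hc] at hb
      exact R2.xi_supp P _ _ u 𝒟 hb
    · rw [if_neg hc] at hb; exact absurd rfl hb
  · exact R2.del_rot hKc s0 _ (R2.xi_supp P a.v a.s) (R2.xi_rot P a.v a.s)
  · intro u 𝒟 D hv hD
    rw [hsum, hsum]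
    refine Finset.sum_congr rfl fun b _ => ?_
    rw [R2.xi_rot P b.1.v b.1.s u 𝒟 D hv hD]
  · intro u 𝒟 hv hn
    have e1 := lhs hKc s0 P a.v u a.s 𝒟 hv hn
    have e2 := rhs hKc s0 P a u 𝒟 hn
    have e3 := hC1 a.v u a.s a.inv hP 𝒟 hv hn
    have e4 := C3.firstBlock hKc s0 P a.v u a.s a.inv hP 𝒟 hv hn
    have e5 := C2.outer hKc P a hP u 𝒟 hv hn
    rw [e1, e3, e4, e5, e2]

section final
variable [Fintype X] {eta : X → Bool}

open Classical in
theorem chain_map (hK : K.IsSys eta) (s0 : Bool) (P : E) (a : K.Gen) (hP : a.s P = false)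
    [Fintype {g : K.Gen // g.s P = false}]
    (hC1 : ∀ (v u : Finset X) (s : E → Bool), (∀ x y, K.same v x y → s x = s y) → s P = false →
      ∀ 𝒟 : Finset (Finset E), K.Valid u 𝒟 → Nrm P 𝒟 →
      (∑ w ∈ u.powerset, if (∀ c ∈ u \ w, K.Nsep 𝒟 c ∧ s (K.tail c) = true) ∧
        K.AC s0 u (u \ w) ∧ K.Xi0 P v s w 𝒟 then (1 : ZMod 2) else 0) +
      (∑ w ∈ u.powerset, ∑ D : Finset E, if D ∉ 𝒟 ∧ B0 𝒟 ⊂ D ∧
        (∀ c ∈ u \ w, K.Nsep 𝒟 c ∧ K.tail c ∈ D ∧ K.head c ∉ D) ∧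
        K.num u + (u \ w).card = K.num w ∧ K.Xi0 P v s w (insert D 𝒟) then (1 : ZMod 2) else 0) =
      ∑ w ∈ u.powerset, if v ⊆ w ∧ K.AC s0 v (w \ v) ∧
        (∀ c ∈ w \ v, s (K.tail c) = true ∧ s (K.head c) = true) ∧
        K.Xi0 P w s u 𝒟 then (1 : ZMod 2) else 0) :
    K.del s0 (K.XiV P a.v a.s) = ∑ b : {g : K.Gen // g.s P = false},
      if K.Coef s0 a b.1 then K.XiV P b.1.v b.1.s else 0 := by
  refine chain_core hK.toIsCore s0 P a hP (fun v u s hs hP 𝒟 hv hn => ?_)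
  have := hC1 v u s hs hP 𝒟 hv hn
  convert this

end final
end C4
end Pool.Agent.helper20.Sz
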